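import Mathlib

/-!
Hölder continuous measures vanish on sets of small Hausdorff dimension.
-/

set_option autoImplicit false

open scoped BigOperators Topology ENNReal NNReal

namespace Pool.Agent.Helper70.PG

open MeasureTheory Set Filter

theorem atom_zero (E₁ E₂ α C : ℝ) (m : Measure ℝ) (hα : 0 < α) (hC : 0 < C)
    (hH : ∀ s t, E₁ < s → s < t → t < E₂ → m (Ioo s t) ≤ ENNReal.ofReal (C * (t - s) ^ α))
    (x : ℝ) (h1 : E₁ < x) (h2 : x < E₂) : m {x} = 0 := by
  have hT : Tendsto (fun h : ℝ => ENNReal.ofReal (C * (2 * h) ^ α)) (𝓝[>] 0) (𝓝 0) := by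
    have h3 : Tendsto (fun h : ℝ => C * (2 * h) ^ α) (𝓝 0) (𝓝 (C * (2 * 0) ^ α)) := by
      refine Tendsto.const_mul _ ?_
      refine Tendsto.rpow_const ?_ (Or.inr hα.le)
      exact tendsto_id.const_mul 2
    rw [mul_zero, Real.zero_rpow hα.ne', mul_zero] at h3
    have h4 := (ENNReal.continuous_ofReal.tendsto 0).comp h3
    rw [ENNReal.ofReal_zero] at h4
    exact h4.mono_left nhdsWithin_le_nhds
  refine le_antisymm (ge_of_tendsto hT ?_) (zero_le)
  have h5 : ∀ᶠ h : ℝ in 𝓝[>] 0, h < min (x - E₁) (E₂ - x) :=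
    nhdsWithin_le_nhds (eventually_lt_nhds (lt_min (by linarith) (by linarith)))
  filter_upwards [h5, self_mem_nhdsWithin] with h h6 h7
  have h7' : 0 < h := h7
  have h8 : h < x - E₁ := h6.trans_le (min_le_left _ _)
  have h9 : h < E₂ - x := h6.trans_le (min_le_right _ _)
  refine (measure_mono (t := Ioo (x - h) (x + h)) ?_).trans ?_
  · intro y hy
    rw [mem_singleton_iff] at hy
    subst hy
    exact ⟨by linarith, by linarith⟩
  · refine (hH (x - h) (x + h) (by linarith) (by linarith) (by linarith)).trans ?_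
    rw [show x + h - (x - h) = 2 * h by ring]

theorem window (E₁ E₂ α C : ℝ) (m : Measure ℝ) (hα : 0 < α) (hC : 0 < C)
    (hH : ∀ s t, E₁ < s → s < t → t < E₂ → m (Ioo s t) ≤ ENNReal.ofReal (C * (t - s) ^ α))
    (S : Set ℝ) (hdim : dimH S < ENNReal.ofReal α) (η : ℝ) (hη : 0 < η) :
    m (S ∩ Ioo (E₁ + η) (E₂ - η)) = 0 := by
  set W : Set ℝ := Ioo (E₁ + η) (E₂ - η) with hW
  have hK : 0 < C * (4 : ℝ) ^ α := mul_pos hC (Real.rpow_pos_of_pos (by norm_num) _)
  set K : ℝ≥0∞ := ENNReal.ofReal (C * (4 : ℝ) ^ α) with hKd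
  have hK0 : K ≠ 0 := by
    rw [hKd]; exact (ENNReal.ofReal_pos.2 hK).ne'
  have hKt : K ≠ ⊤ := ENNReal.ofReal_ne_top
  have hμ0 : μH[α] S = 0 := by
    have h1 : dimH S < ((α.toNNReal : ℝ≥0) : ℝ≥0∞) := hdim
    have h2 := hausdorffMeasure_of_dimH_lt h1
    rwa [Real.coe_toNNReal α hα.le] at h2
  have hle : K⁻¹ • m.restrict W ≤ μH[α] := by
    refine Measure.le_hausdorffMeasure α _ (ENNReal.ofReal (η / 4))
      (ENNReal.ofReal_pos.2 (by positivity)) fun s hs => ?_
    rw [Measure.smul_apply, Measure.restrict_apply' measurableSet_Ioo, smul_eq_mul]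
    rcases (s ∩ W).eq_empty_or_nonempty with h3 | ⟨x, hxs, hxW⟩
    · rw [h3, measure_empty, mul_zero]; exact zero_le
    have hfin : Metric.ediam s ≠ ⊤ := ne_top_of_le_ne_top ENNReal.ofReal_ne_top hs
    set D : ℝ := (Metric.ediam s).toReal with hD
    have hDle : D ≤ η / 4 := by
      rw [hD]
      exact ENNReal.toReal_le_of_le_ofReal (by positivity) hs
    have hDd : ENNReal.ofReal D = Metric.ediam s := ENNReal.ofReal_toReal hfin
    have hD0 : 0 ≤ D := ENNReal.toReal_nonneg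
    have hdist : ∀ y ∈ s, dist y x ≤ D := by
      intro y hy
      rw [dist_edist, hD]
      exact ENNReal.toReal_mono hfin (Metric.edist_le_ediam_of_mem hy hxs)
    rcases hD0.eq_or_lt with h4 | h4
    · have h5 : s ∩ W ⊆ {x} := by
        rintro y ⟨hy, _⟩
        have h6 := hdist y hy
        rw [← h4] at h6
        exact dist_le_zero.1 h6
      have h7 : m (s ∩ W) = 0 :=
        measure_mono_null h5 (atom_zero E₁ E₂ α C m hα hC hH x (by linarith [hxW.1])
          (by linarith [hxW.2]))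
      rw [h7, mul_zero]; exact zero_le
    · have h5 : s ∩ W ⊆ Ioo (x - 2 * D) (x + 2 * D) := by
        rintro y ⟨hy, _⟩
        have h6 := abs_le.1 ((Real.dist_eq y x) ▸ hdist y hy)
        exact ⟨by linarith [h6.1], by linarith [h6.2]⟩
      have h6 : m (s ∩ W) ≤ ENNReal.ofReal (C * (x + 2 * D - (x - 2 * D)) ^ α) :=
        (measure_mono h5).trans (hH _ _ (by linarith [hxW.1]) (by linarith)
          (by linarith [hxW.2]))
      have h7 : ENNReal.ofReal (C * (x + 2 * D - (x - 2 * D)) ^ α) = K * Metric.ediam s ^ α := by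
        rw [show x + 2 * D - (x - 2 * D) = 4 * D by ring, Real.mul_rpow (by norm_num) hD0,
          ← mul_assoc, ENNReal.ofReal_mul hK.le, ← hDd, ENNReal.ofReal_rpow_of_nonneg hD0 hα.le]
      calc K⁻¹ * m (s ∩ W) ≤ K⁻¹ * (K * Metric.ediam s ^ α) := by
            rw [← h7]; exact mul_le_mul_right h6 _
        _ = Metric.ediam s ^ α := by
            rw [← mul_assoc, ENNReal.inv_mul_cancel hK0 hKt, one_mul]
  have h8 : (K⁻¹ • m.restrict W) S = 0 := le_antisymm ((hle S).trans hμ0.le) (zero_le)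
  rw [Measure.smul_apply, Measure.restrict_apply' measurableSet_Ioo, smul_eq_mul] at h8
  rcases mul_eq_zero.1 h8 with h9 | h9
  · exact absurd (ENNReal.inv_eq_zero.1 h9) hKt
  · exact h9

/-- A2 (`S_Dim`, written out) -/
theorem dim : ∀ (E₁ E₂ α C : ℝ) (m : Measure ℝ) [IsFiniteMeasure m], 0 < α → 0 < C →
    (∀ s t, E₁ < s → s < t → t < E₂ → m (Set.Ioo s t) ≤ ENNReal.ofReal (C * (t - s) ^ α)) →
    ∀ S ⊆ Set.Ioo E₁ E₂, dimH S < ENNReal.ofReal α → m S = 0 := by
  intro E₁ E₂ α C m _ hα hC hH S hS hdim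
  have h1 : S ⊆ ⋃ n : ℕ, S ∩ Ioo (E₁ + 1 / ((n : ℝ) + 1)) (E₂ - 1 / ((n : ℝ) + 1)) := by
    intro x hx
    have h2 : 0 < min (x - E₁) (E₂ - x) := lt_min (by linarith [(hS hx).1])
      (by linarith [(hS hx).2])
    obtain ⟨n, hn⟩ := exists_nat_one_div_lt h2
    have h3 := hn.trans_le (min_le_left _ _)
    have h4 := hn.trans_le (min_le_right _ _)
    exact mem_iUnion.2 ⟨n, hx, by linarith, by linarith⟩
  refine measure_mono_null h1 (measure_iUnion_null fun n => ?_)
  exact window E₁ E₂ α C m hα hC hH S hdim _ (by positivity)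

end Pool.Agent.Helper70.PG
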