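import Pool.Agent.Helper32.PG.Stm6

/-! Package M1 of helper32's PolynomialGrowth: from Poisson integrals to measures of intervals. -/

set_option autoImplicit false

namespace Pool.Agent.Helper70.PG

open MeasureTheory Pool.Agent.Helper32.PG

theorem ker_int (m : Measure ℝ) [IsFiniteMeasure m] (E y : ℝ) (hy : 0 < y) :
    Integrable (fun x : ℝ => y / ((x - E) ^ 2 + y ^ 2)) m := by
  refine Integrable.of_bound (C := 1 / y) ?_ ?_
  · exact (Continuous.div (by fun_prop) (by fun_prop) (fun x => by positivity)).aestronglyMeasurable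
  · refine Filter.Eventually.of_forall fun x => ?_
    rw [Real.norm_of_nonneg (by positivity), div_le_div_iff₀ (by positivity) hy]
    nlinarith [sq_nonneg (x - E)]

theorem int_ind (m : Measure ℝ) [IsFiniteMeasure m] (s t b : ℝ) :
    ∫ x, (Set.Ioo s t).indicator (fun _ => b) x ∂m = b * (m (Set.Ioo s t)).toReal := by
  rw [integral_indicator measurableSet_Ioo, setIntegral_const, smul_eq_mul, mul_comm]
  rfl

theorem ind_int (m : Measure ℝ) [IsFiniteMeasure m] (s t b : ℝ) :
    Integrable ((Set.Ioo s t).indicator (fun _ => b)) m :=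
  (integrable_const b).indicator measurableSet_Ioo

/-- lower bound of the Poisson integral by the mass of an interval -/
theorem lower (m : Measure ℝ) [IsFiniteMeasure m] (s t : ℝ) (hst : s < t) :
    (m (Set.Ioo s t)).toReal ≤ (t - s) *
      ∫ x : ℝ, ((t - s) / 2) / ((x - (s + t) / 2) ^ 2 + ((t - s) / 2) ^ 2) ∂m := by
  have hy : 0 < (t - s) / 2 := by linarith
  have h1 : ∫ x, (Set.Ioo s t).indicator (fun _ => 1 / (t - s)) x ∂m ≤
      ∫ x : ℝ, ((t - s) / 2) / ((x - (s + t) / 2) ^ 2 + ((t - s) / 2) ^ 2) ∂m := by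
    refine integral_mono (ind_int m s t _) (ker_int m _ _ hy) fun x => ?_
    by_cases hx : x ∈ Set.Ioo s t
    · simp only [Set.indicator_of_mem hx]
      rw [div_le_div_iff₀ (by linarith) (by positivity)]
      obtain ⟨hx1, hx2⟩ := hx
      nlinarith [mul_pos (sub_pos.2 hx1) (sub_pos.2 hx2)]
    · simp only [Set.indicator_of_notMem hx]
      positivity
  rw [int_ind] at h1
  have h2 : 0 < t - s := by linarith
  calc (m (Set.Ioo s t)).toReal = (t - s) * (1 / (t - s) * (m (Set.Ioo s t)).toReal) := by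
        field_simp
    _ ≤ _ := mul_le_mul_of_nonneg_left h1 h2.le

/-- upper bound of the Poisson integral -/
theorem upper (m : Measure ℝ) [IsFiniteMeasure m] (s t y : ℝ) (hst : s < t) (hy : 0 < y)
    (hyr : y ≤ (t - s) / 2) :
    ∫ x : ℝ, y / ((x - (s + t) / 2) ^ 2 + y ^ 2) ∂m ≤ (m (Set.Ioo s t)).toReal / y +
      2 * y / ((t - s) / 2) *
        ∫ x : ℝ, ((t - s) / 2) / ((x - (s + t) / 2) ^ 2 + ((t - s) / 2) ^ 2) ∂m := by
  have hr : 0 < (t - s) / 2 := by linarith
  set r := (t - s) / 2 with hr'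
  set E := (s + t) / 2 with hE'
  have h1 : ∫ x : ℝ, y / ((x - E) ^ 2 + y ^ 2) ∂m ≤
      ∫ x : ℝ, ((Set.Ioo s t).indicator (fun _ => 1 / y) x +
        2 * y / r * (r / ((x - E) ^ 2 + r ^ 2))) ∂m := by
    refine integral_mono (ker_int m _ _ hy)
      ((ind_int m s t _).add ((ker_int m E r hr).const_mul _)) fun x => ?_
    by_cases hx : x ∈ Set.Ioo s t
    · simp only [Set.indicator_of_mem hx]
      have h2 : y / ((x - E) ^ 2 + y ^ 2) ≤ 1 / y := by
        rw [div_le_div_iff₀ (by positivity) hy]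
        nlinarith [sq_nonneg (x - E)]
      have h3 : 0 ≤ 2 * y / r * (r / ((x - E) ^ 2 + r ^ 2)) := by positivity
      linarith
    · simp only [Set.indicator_of_notMem hx, zero_add]
      have h4 : r ^ 2 ≤ (x - E) ^ 2 := by
        rw [Set.mem_Ioo, not_and_or, not_lt, not_lt] at hx
        rcases hx with hx | hx
        · nlinarith
        · nlinarith
      have h5 : 2 * y / r * (r / ((x - E) ^ 2 + r ^ 2)) = 2 * y / ((x - E) ^ 2 + r ^ 2) := by
        field_simp
      rw [h5, div_le_div_iff₀ (by positivity) (by positivity)]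
      nlinarith [sq_nonneg y, mul_nonneg hy.le (sq_nonneg y)]
  rw [integral_add (ind_int m s t _) ((ker_int m E r hr).const_mul _), int_ind,
    integral_const_mul] at h1
  have h6 : 1 / y * (m (Set.Ioo s t)).toReal = (m (Set.Ioo s t)).toReal / y := by ring
  rw [h6] at h1
  exact h1

theorem meas : S_Meas := by
  intro E₁ E₂ ε C m _ hE hε hε1 hC hP
  have hmid : ∀ s t : ℝ, E₁ < s → s < t → t < E₂ →
      (m (Set.Ioo s t)).toReal ≤ (t - s) * (C * ((t - s) / 2) ^ (-(ε / 8))) := by
    intro s t hs hst ht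
    refine (lower m s t hst).trans ?_
    refine mul_le_mul_of_nonneg_left ?_ (by linarith)
    exact hP ((s + t) / 2) ((t - s) / 2) (by linarith) (by linarith) (by linarith) (by linarith)
  refine ⟨?_, ?_⟩
  · intro s t hs hst ht
    refine (hmid s t hs hst ht).trans ?_
    have hd : 0 < t - s := by linarith
    have hd1 : t - s ≤ 1 := by linarith
    have hy : 0 < (t - s) / 2 := by linarith
    have h1 : (t - s) * (C * ((t - s) / 2) ^ (-(ε / 8))) =
        2 * C * ((t - s) / 2) ^ (1 - ε / 8) := by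
      rw [show (1 - ε / 8) = 1 + (-(ε / 8)) by ring, Real.rpow_add hy, Real.rpow_one]
      ring
    rw [h1]
    refine mul_le_mul_of_nonneg_left ?_ (by positivity)
    calc ((t - s) / 2) ^ (1 - ε / 8) ≤ (t - s) ^ (1 - ε / 8) :=
          Real.rpow_le_rpow hy.le (by linarith) (by linarith)
      _ ≤ (t - s) ^ (1 - ε) := Real.rpow_le_rpow_of_exponent_ge hd hd1 (by linarith)
  · intro c hc hPl
    set a : ℝ := ε / 8 with ha
    have ha0 : 0 < a := by positivity
    have ha1 : a ≤ 1 / 8 := by rw [ha]; linarith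
    set κ : ℝ := min 1 ((c / (4 * C)) ^ (1 / (1 - a))) with hκ
    have hcC : 0 < c / (4 * C) := by positivity
    have hκ0 : 0 < κ := lt_min one_pos (Real.rpow_pos_of_pos hcC _)
    have hκ1 : κ ≤ 1 := min_le_left _ _
    have h1a : 0 < 1 - a := by linarith
    have hκa : κ ^ (1 - a) ≤ c / (4 * C) := by
      calc κ ^ (1 - a) ≤ ((c / (4 * C)) ^ (1 / (1 - a))) ^ (1 - a) :=
            Real.rpow_le_rpow hκ0.le (min_le_right _ _) h1a.le
        _ = c / (4 * C) := by
            rw [← Real.rpow_mul hcC.le, one_div_mul_cancel h1a.ne', Real.rpow_one]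
    refine ⟨c / 2 * κ ^ (1 + a) * (1 / 2) ^ (1 + ε), by positivity, ?_⟩
    intro s t hs hst ht
    have hd : 0 < t - s := by linarith
    have hd1 : t - s ≤ 1 := by linarith
    set r : ℝ := (t - s) / 2 with hr
    have hr0 : 0 < r := by rw [hr]; linarith
    have hr1 : r ≤ 1 := by rw [hr]; linarith
    set y : ℝ := κ * r ^ ((1 + a) / (1 - a)) with hy
    have hy0 : 0 < y := by positivity
    have hexp : 1 ≤ (1 + a) / (1 - a) := by rw [le_div_iff₀ h1a]; linarith
    have hyr : y ≤ r := by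
      calc y ≤ 1 * r ^ ((1 + a) / (1 - a)) := by
            rw [hy]; exact mul_le_mul_of_nonneg_right hκ1 (by positivity)
        _ ≤ 1 * r ^ (1 : ℝ) :=
            mul_le_mul_of_nonneg_left (Real.rpow_le_rpow_of_exponent_ge hr0 hr1 hexp) (by norm_num)
        _ = r := by rw [Real.rpow_one, one_mul]
    have hy1 : y ≤ 1 := hyr.trans hr1
    have hmidpt1 : E₁ < (s + t) / 2 := by linarith
    have hmidpt2 : (s + t) / 2 < E₂ := by linarith
    have k1 := hPl ((s + t) / 2) y hmidpt1 hmidpt2 hy0 hy1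
    have k2 := upper m s t y hst hy0 hyr
    have k3 := hP ((s + t) / 2) r hmidpt1 hmidpt2 hr0 hr1
    have k4 : c * y ^ a ≤ (m (Set.Ioo s t)).toReal / y + 2 * y / r * (C * r ^ (-a)) := by
      refine k1.trans (k2.trans ?_)
      exact add_le_add le_rfl (mul_le_mul_of_nonneg_left k3 (by positivity))
    -- the second term is at most half of the left hand side
    have k5 : 2 * y / r * (C * r ^ (-a)) ≤ c / 2 * y ^ a := by
      have e1 : y = y ^ a * y ^ (1 - a) := by
        rw [← Real.rpow_add hy0]; simp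
      have e2 : y ^ (1 - a) = κ ^ (1 - a) * r ^ (1 + a) := by
        rw [hy, Real.mul_rpow hκ0.le (by positivity), ← Real.rpow_mul hr0.le,
          div_mul_cancel₀ _ h1a.ne']
      have e3 : r ^ (1 + a) * r ^ (-a) / r = 1 := by
        rw [← Real.rpow_add hr0]; simp [hr0.ne']
      have e4 : 2 * y / r * (C * r ^ (-a)) = 2 * C * κ ^ (1 - a) * y ^ a := by
        calc 2 * y / r * (C * r ^ (-a)) = 2 * C * (y * r ^ (-a) / r) := by ring
          _ = 2 * C * (y ^ a * (κ ^ (1 - a) * r ^ (1 + a)) * r ^ (-a) / r) := by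
              rw [← e2, ← e1]
          _ = 2 * C * κ ^ (1 - a) * y ^ a * (r ^ (1 + a) * r ^ (-a) / r) := by ring
          _ = 2 * C * κ ^ (1 - a) * y ^ a := by rw [e3, mul_one]
      rw [e4]
      have e5 : 2 * C * κ ^ (1 - a) ≤ c / 2 := by
        calc 2 * C * κ ^ (1 - a) ≤ 2 * C * (c / (4 * C)) :=
              mul_le_mul_of_nonneg_left hκa (by positivity)
          _ = c / 2 := by field_simp; ring
      exact mul_le_mul_of_nonneg_right e5 (by positivity)
    have k6 : c / 2 * y ^ a ≤ (m (Set.Ioo s t)).toReal / y := by linarith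
    have k7 : c / 2 * y ^ (1 + a) ≤ (m (Set.Ioo s t)).toReal := by
      rw [le_div_iff₀ hy0] at k6
      calc c / 2 * y ^ (1 + a) = c / 2 * y ^ a * y := by
            rw [Real.rpow_add hy0, Real.rpow_one]; ring
        _ ≤ _ := k6
    refine le_trans ?_ k7
    have e6 : y ^ (1 + a) = κ ^ (1 + a) * r ^ ((1 + a) / (1 - a) * (1 + a)) := by
      rw [hy, Real.mul_rpow hκ0.le (by positivity), ← Real.rpow_mul hr0.le]
    have e7 : r ^ (1 + ε) ≤ r ^ ((1 + a) / (1 - a) * (1 + a)) := by
      refine Real.rpow_le_rpow_of_exponent_ge hr0 hr1 ?_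
      rw [div_mul_eq_mul_div, div_le_iff₀ h1a]
      have : ε = 8 * a := by rw [ha]; ring
      rw [this]
      nlinarith
    have e8 : r ^ (1 + ε) = (1 / 2) ^ (1 + ε) * (t - s) ^ (1 + ε) := by
      rw [← Real.mul_rpow (by norm_num) hd.le]
      congr 1
      rw [hr]; ring
    calc c / 2 * κ ^ (1 + a) * (1 / 2) ^ (1 + ε) * (t - s) ^ (1 + ε)
        = c / 2 * κ ^ (1 + a) * r ^ (1 + ε) := by rw [e8]; ring
      _ ≤ c / 2 * κ ^ (1 + a) * r ^ ((1 + a) / (1 - a) * (1 + a)) :=
          mul_le_mul_of_nonneg_left e7 (by positivity)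
      _ = c / 2 * y ^ (1 + a) := by rw [e6]; ring

end Pool.Agent.Helper70.PG
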